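import Pool.Agent.Y767.KG.Bae2

set_option autoImplicit false
set_option linter.unusedSectionVars false

namespace Pool.Agent.Results.MP_7f7e2f_an.KottmanGap

open Filter Topology

/-- The separation of a sequence: the infimum of `‖x n - x m‖` over `n ≠ m`. -/
noncomputable def sep {X : Type*} [NormedAddCommGroup X] (x : ℕ → X) : ℝ :=
  sInf {r : ℝ | ∃ n m : ℕ, n ≠ m ∧ r = ‖x n - x m‖}

/-- The symmetric separation of a sequence: the infimum of `min ‖x n - x m‖ ‖x n + x m‖`
over `n ≠ m`. -/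
noncomputable def symmSep {X : Type*} [NormedAddCommGroup X] (x : ℕ → X) : ℝ :=
  sInf {r : ℝ | ∃ n m : ℕ, n ≠ m ∧ r = min ‖x n - x m‖ ‖x n + x m‖}

/-- The Kottman constant: the supremum of the separations of sequences in the closed unit ball. -/
noncomputable def kottman (X : Type*) [NormedAddCommGroup X] : ℝ :=
  sSup {s : ℝ | ∃ x : ℕ → X, (∀ n, ‖x n‖ ≤ 1) ∧ s = sep x}

/-- The symmetric Kottman constant. -/
noncomputable def symmKottman (X : Type*) [NormedAddCommGroup X] : ℝ :=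
  sSup {s : ℝ | ∃ x : ℕ → X, (∀ n, ‖x n‖ ≤ 1) ∧ s = symmSep x}

/-- `Z` is a spreading model of `X`: there is a normalized sequence `y` in `X` with no Cauchy
subsequence such that all iterated limits `L a` of the norms of `∑ a i • y (n i)` exist, and `Z`
is (isometric to) the completion of the finitely supported sequences under the norm `L`, i.e.
`Z` is complete and contains a linearly independent sequence `e` with dense linear span such that
the norm of `∑ a i • e i` is the limit `L a`. -/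
def IsSpreadingModel (X Z : Type*) [NormedAddCommGroup X] [NormedSpace ℝ X]
    [NormedAddCommGroup Z] [NormedSpace ℝ Z] : Prop :=
  CompleteSpace Z ∧ ∃ (y : ℕ → X) (e : ℕ → Z),
    (∀ n, ‖y n‖ = 1) ∧
    (∀ φ : ℕ → ℕ, StrictMono φ → ¬ CauchySeq (y ∘ φ)) ∧
    (∀ (k : ℕ) (a : Fin k → ℝ), ∀ ε > 0, ∃ N : ℕ, ∀ n : Fin k → ℕ, StrictMono n →
      (∀ i, N ≤ n i) → |‖∑ i, a i • y (n i)‖ - ‖∑ i, a i • e i‖| < ε) ∧
    LinearIndependent ℝ e ∧
    Dense (Submodule.span ℝ (Set.range e) : Set Z)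

section general

variable {X : Type*} [NormedAddCommGroup X]

lemma sep_le (x : ℕ → X) {n m : ℕ} (h : n ≠ m) : sep x ≤ ‖x n - x m‖ :=
  csInf_le ⟨0, by rintro _ ⟨n, m, -, rfl⟩; exact norm_nonneg _⟩ ⟨n, m, h, rfl⟩

lemma symmSep_le (x : ℕ → X) {n m : ℕ} (h : n ≠ m) :
    symmSep x ≤ min ‖x n - x m‖ ‖x n + x m‖ :=
  csInf_le ⟨0, by
    rintro _ ⟨n, m, -, rfl⟩
    exact le_min (norm_nonneg _) (norm_nonneg _)⟩ ⟨n, m, h, rfl⟩

lemma symmSep_le_sep (x : ℕ → X) : symmSep x ≤ sep x := by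
  refine le_csInf ⟨_, 0, 1, by norm_num, rfl⟩ ?_
  rintro _ ⟨n, m, h, rfl⟩
  exact (symmSep_le x h).trans (min_le_left _ _)

lemma sep_le_two {x : ℕ → X} (hx : ∀ n, ‖x n‖ ≤ 1) : sep x ≤ 2 := by
  refine (sep_le x (show 0 ≠ 1 by norm_num)).trans ((norm_sub_le _ _).trans ?_)
  linarith [hx 0, hx 1]

lemma kottman_bdd : BddAbove {s : ℝ | ∃ x : ℕ → X, (∀ n, ‖x n‖ ≤ 1) ∧ s = sep x} :=
  ⟨2, by rintro _ ⟨x, hx, rfl⟩; exact sep_le_two hx⟩

lemma symmKottman_bdd : BddAbove {s : ℝ | ∃ x : ℕ → X, (∀ n, ‖x n‖ ≤ 1) ∧ s = symmSep x} :=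
  ⟨2, by rintro _ ⟨x, hx, rfl⟩; exact (symmSep_le_sep x).trans (sep_le_two hx)⟩

lemma kottman_le_two : kottman X ≤ 2 := by
  refine csSup_le ⟨_, fun _ => 0, by simp, rfl⟩ ?_
  rintro _ ⟨x, hx, rfl⟩
  exact sep_le_two hx

lemma symmKottman_le_kottman : symmKottman X ≤ kottman X := by
  refine csSup_le ⟨_, fun _ => 0, by simp, rfl⟩ ?_
  rintro _ ⟨x, hx, rfl⟩
  exact (symmSep_le_sep x).trans (le_csSup kottman_bdd ⟨x, hx, rfl⟩)

lemma not_cauchy {x : ℕ → X} (h : ∀ n m, n ≠ m → 1 ≤ ‖x n - x m‖) (φ : ℕ → ℕ)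
    (hφ : StrictMono φ) : ¬ CauchySeq (x ∘ φ) := by
  intro hc
  obtain ⟨N, hN⟩ := Metric.cauchySeq_iff.1 hc 1 one_pos
  have h1 := hN N le_rfl (N + 1) (Nat.le_succ N)
  rw [dist_eq_norm] at h1
  have h2 := h (φ N) (φ (N + 1)) (hφ (Nat.lt_succ_self N)).ne
  simp only [Function.comp_apply] at h1
  linarith

lemma not_finiteDimensional [NormedSpace ℝ X] {x : ℕ → X} (hx : ∀ n, ‖x n‖ ≤ 1)
    (h : ∀ n m, n ≠ m → 1 ≤ ‖x n - x m‖) : ¬ FiniteDimensional ℝ X := by
  intro hf
  have : ProperSpace X := FiniteDimensional.proper ℝ X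
  obtain ⟨a, -, φ, hφ, hlim⟩ := tendsto_subseq_of_bounded
    (Metric.isBounded_closedBall (x := (0 : X)) (r := 1)) (x := x) (fun n => by simpa using hx n)
  exact not_cauchy h φ hφ hlim.cauchySeq

end general

open ZeroAtInfty Pool.Agent.Y767.KG

/-- the space `c₀` of null sequences with the supremum norm -/
abbrev Z0 : Type := C₀(ℕ, ℝ)

/-- coordinate vectors in `c₀` -/
noncomputable def ez (i : ℕ) : Z0 where
  toFun := fun n => if n = i then 1 else 0
  continuous_toFun := continuous_of_discreteTopology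
  zero_at_infty' := by
    rw [Filter.cocompact_eq_cofinite, Nat.cofinite_eq_atTop]
    apply tendsto_const_nhds.congr'
    filter_upwards [eventually_gt_atTop i] with n hn
    rw [if_neg (by omega)]

lemma ez_apply (i n : ℕ) : ez i n = if n = i then 1 else 0 := rfl

/-- evaluation of a sum -/
lemma sum_apply {ι : Type*} (s : Finset ι) (a : ι → ℝ) (n : ι → ℕ) (t : ℕ) :
    (∑ i ∈ s, a i • ez (n i)) t = ∑ i ∈ s, a i * (if t = n i then 1 else 0) := by
  classical
  induction s using Finset.induction_on with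
  | empty => simp
  | insert j s hj ih =>
    rw [Finset.sum_insert hj, Finset.sum_insert hj, ZeroAtInftyContinuousMap.add_apply, ih]
    rfl

lemma abs_le_norm (z : Z0) (t : ℕ) : |z t| ≤ ‖z‖ := by
  rw [← ZeroAtInftyContinuousMap.norm_toBCF_eq_norm]
  exact BoundedContinuousFunction.norm_coe_le_norm z.toBCF t

lemma norm_le_of (z : Z0) {C : ℝ} (hC : 0 ≤ C) (h : ∀ t, |z t| ≤ C) : ‖z‖ ≤ C := by
  rw [← ZeroAtInftyContinuousMap.norm_toBCF_eq_norm]
  exact (BoundedContinuousFunction.norm_le hC).2 h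

lemma norm_ez (i : ℕ) : ‖ez i‖ = 1 := by
  apply le_antisymm
  · apply norm_le_of _ zero_le_one
    intro t
    rw [ez_apply]
    split_ifs <;> simp
  · have := abs_le_norm (ez i) i
    rw [ez_apply, if_pos rfl] at this
    simpa using this

lemma ez_sep (n m : ℕ) (h : n ≠ m) : 1 ≤ ‖ez n - ez m‖ := by
  have := abs_le_norm (ez n - ez m) n
  rw [ZeroAtInftyContinuousMap.sub_apply, ez_apply, ez_apply,
    if_pos rfl, if_neg h] at this
  simpa using this

lemma ez_dense : Dense (Submodule.span ℝ (Set.range ez) : Set Z0) := by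
  rw [Metric.dense_iff]
  intro z r hr
  have h0 := z.zero_at_infty'
  rw [Filter.cocompact_eq_cofinite, Nat.cofinite_eq_atTop] at h0
  obtain ⟨N, hN⟩ := Metric.tendsto_atTop.1 h0 (r / 2) (by positivity)
  refine ⟨∑ i ∈ Finset.range N, z i • ez i, ?_, ?_⟩
  · rw [Metric.mem_ball, dist_eq_norm]
    refine lt_of_le_of_lt (norm_le_of _ (by positivity : 0 ≤ r / 2) ?_) (by linarith)
    intro t
    rw [ZeroAtInftyContinuousMap.sub_apply, sum_apply (Finset.range N) (fun i => z i) (fun i => i)]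
    by_cases ht : t < N
    · rw [Finset.sum_eq_single t]
      · simp only [if_true, mul_one, sub_self, abs_zero]
        positivity
      · intro i _ hi
        rw [if_neg (Ne.symm hi), mul_zero]
      · intro h; exact absurd (Finset.mem_range.2 ht) h
    · rw [Finset.sum_eq_zero]
      · have h1 := hN t (by omega)
        rw [Real.dist_eq, sub_zero] at h1
        rw [zero_sub, abs_neg]
        exact h1.le
      · intro i hi
        rw [Finset.mem_range] at hi
        rw [if_neg (by omega), mul_zero]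
  · apply Submodule.sum_mem
    intro i _
    exact Submodule.smul_mem _ _ (Submodule.subset_span ⟨i, rfl⟩)

lemma ez_indep : LinearIndependent ℝ ez := by
  refine linearIndependent_iff'.2 ?_
  intro s g hg i hi
  have h1 := sum_apply s g (fun i => i) i
  rw [hg] at h1
  simp only [mul_ite, mul_one, mul_zero] at h1
  rw [Finset.sum_ite_eq, if_pos hi] at h1
  exact h1.symm

variable {e : Ex}

lemma norm_ev_le (n : ℕ) : ‖ev e n‖ ≤ 1 :=
  LinearMap.mkContinuous_norm_le _ zero_le_one _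

lemma ev_uv e (n m : ℕ) : ev e n (uv e m) = if n = m then 1 else 0 := by
  change (Finsupp.single m (1 : ℝ) : ℕ →₀ ℝ) n = _
  rw [Finsupp.single_apply]
  by_cases h : n = m
  · rw [if_pos h, if_pos h.symm]
  · rw [if_neg h, if_neg (Ne.symm h)]

lemma norm_ev (n : ℕ) : ‖ev e n‖ = 1 := by
  apply le_antisymm (norm_ev_le n)
  have h1 := (ev e n).le_opNorm (uv e n)
  rw [ev_uv, if_pos rfl, norm_uv, mul_one, norm_one] at h1
  exact h1

lemma ev_sep (n m : ℕ) (h : n ≠ m) : 1 ≤ ‖ev e n - ev e m‖ := by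
  have h1 := (ev e n - ev e m).le_opNorm (uv e n)
  rw [norm_uv, mul_one] at h1
  have h2 : (ev e n - ev e m) (uv e n) = 1 := by
    change ev e n (uv e n) - ev e m (uv e n) = 1
    rw [ev_uv, ev_uv, if_pos rfl, if_neg (Ne.symm h), sub_zero]
  rw [h2, norm_one] at h1
  exact h1

lemma norm_eq (k : ℕ) (a : Fin k → ℝ) (n : Fin k → ℕ) (hn : StrictMono n) (hk : ∀ i, k ≤ n i) :
    ‖∑ i, a i • ev e (n i)‖ = ‖∑ i : Fin k, a i • ez (i : ℕ)‖ := by
  classical
  set S : Z0 := ∑ i : Fin k, a i • ez (i : ℕ) with hS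
  have hSt : ∀ t, S t = ∑ i : Fin k, a i * (if t = (i : ℕ) then 1 else 0) :=
    fun t => sum_apply Finset.univ a (fun i : Fin k => (i : ℕ)) t
  have hSj : ∀ j : Fin k, |a j| ≤ ‖S‖ := by
    intro j
    have h1 := abs_le_norm S j
    rw [hSt, Finset.sum_eq_single j] at h1
    · simpa using h1
    · intro i _ hij
      rw [if_neg, mul_zero]
      intro h
      exact hij (Fin.ext h.symm)
    · intro h; exact absurd (Finset.mem_univ j) h
  apply le_antisymm
  · refine ContinuousLinearMap.opNorm_le_bound _ (norm_nonneg S) ?_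
    have h0 : ∀ y : E e, (∑ i, a i • ev e (n i)) y = ∑ i, a i * ev e (n i) y := by
      intro y
      rw [_root_.sum_apply]
      rfl
    change ∀ y : ℕ →₀ ℝ, ‖(∑ i, a i • ev e (n i)) y‖ ≤ ‖S‖ * nm e y
    intro y
    have h1 : (∑ i, a i • ev e (n i)) y = ∑ i, a i * y (n i) := h0 y
    rw [h1, Real.norm_eq_abs]
    calc |∑ i, a i * y (n i)| ≤ ∑ i, |a i * y (n i)| := Finset.abs_sum_le_sum_abs _ _
      _ ≤ ∑ i, ‖S‖ * |y (n i)| := by
          apply Finset.sum_le_sum
          intro i _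
          rw [abs_mul]
          exact mul_le_mul_of_nonneg_right (hSj i) (abs_nonneg _)
      _ = ‖S‖ * ∑ j ∈ Finset.univ.map ⟨n, hn.injective⟩, |y j| := by
          rw [← Finset.mul_sum, Finset.sum_map]
          rfl
      _ ≤ ‖S‖ * nm e y := by
          apply mul_le_mul_of_nonneg_left _ (norm_nonneg _)
          apply sum_abs_le_nm
          intro j hj
          rw [Finset.mem_map] at hj
          obtain ⟨i, -, rfl⟩ := hj
          rw [Finset.card_map, Finset.card_univ, Fintype.card_fin]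
          exact (hk i).trans (Nat.le_succ _)
  · apply norm_le_of _ (norm_nonneg _)
    intro t
    rw [hSt]
    by_cases ht : t < k
    · rw [Finset.sum_eq_single (⟨t, ht⟩ : Fin k)]
      · rw [if_pos rfl, mul_one]
        have h1 := (∑ i, a i • ev e (n i)).le_opNorm (uv e (n ⟨t, ht⟩))
        rw [norm_uv, mul_one, _root_.sum_apply, Finset.sum_eq_single (⟨t, ht⟩ : Fin k)]
          at h1
        · have h2 : (a ⟨t, ht⟩ • ev e (n ⟨t, ht⟩)) (uv e (n ⟨t, ht⟩)) = a ⟨t, ht⟩ := by
            change a ⟨t, ht⟩ * ev e (n ⟨t, ht⟩) (uv e (n ⟨t, ht⟩)) = _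
            rw [ev_uv, if_pos rfl, mul_one]
          rw [h2] at h1
          exact h1
        · intro i _ hi
          change a i * ev e (n i) (uv e (n ⟨t, ht⟩)) = 0
          rw [ev_uv, if_neg (fun h => hi (hn.injective h)), mul_zero]
        · intro h; exact absurd (Finset.mem_univ _) h
      · intro i _ hi
        rw [if_neg, mul_zero]
        intro h
        exact hi (Fin.ext h.symm)
      · intro h; exact absurd (Finset.mem_univ _) h
    · rw [Finset.sum_eq_zero]
      · rw [abs_zero]; exact norm_nonneg _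
      · intro i _
        rw [if_neg, mul_zero]
        intro h
        have := i.2
        omega

lemma spreading : IsSpreadingModel (StrongDual ℝ (E e)) (C₀(ℕ, ℝ)) := by
  refine ⟨inferInstance, ev e, ez, norm_ev, fun φ hφ => not_cauchy ev_sep φ hφ, ?_, ez_indep,
    ez_dense⟩
  intro k a ε hε
  refine ⟨k, fun n hn hk => ?_⟩
  rw [norm_eq k a n hn hk, sub_self, abs_zero]
  exact hε

lemma kottman_dual_le : kottman (StrongDual ℝ (E e)) ≤ 2 ^ (1 / e.q) := by
  refine csSup_le ⟨_, fun _ => 0, by simp, rfl⟩ ?_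
  rintro _ ⟨f, hf, rfl⟩
  apply le_of_forall_pos_le_add
  intro ε hε
  obtain ⟨n, m, hnm, h⟩ := close_pair f hf (show 0 < ε / 5 by positivity)
  refine (sep_le f hnm).trans (h.trans ?_)
  linarith

/-- the symmetrically separated sequence -/
noncomputable def zz (n : ℕ) : Z0 := (∑ i ∈ Finset.range (n + 1), ez i) - ez (n + 1)

lemma zz_apply (n t : ℕ) : zz n t = (if t < n + 1 then 1 else 0) -
    (if t = n + 1 then 1 else 0) := by
  have h1 := sum_apply (Finset.range (n + 1)) (fun _ => 1) (fun i => i) t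
  simp only [one_smul, one_mul] at h1
  unfold zz
  rw [ZeroAtInftyContinuousMap.sub_apply, h1, ez_apply]
  congr 1
  rw [Finset.sum_ite_eq]
  simp only [Finset.mem_range]

lemma zz_norm (n : ℕ) : ‖zz n‖ ≤ 1 := by
  apply norm_le_of _ zero_le_one
  intro t
  rw [zz_apply]
  by_cases h1 : t < n + 1
  · rw [if_pos h1, if_neg (by omega)]; simp
  · rw [if_neg h1]
    split_ifs <;> simp

lemma zz_sub {n m : ℕ} (h : m < n) : 2 ≤ ‖zz n - zz m‖ := by
  have h1 := abs_le_norm (zz n - zz m) (m + 1)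
  rw [ZeroAtInftyContinuousMap.sub_apply, zz_apply, zz_apply, if_pos (by omega),
    if_neg (by omega), if_neg (by omega), if_pos rfl] at h1
  norm_num at h1
  exact h1

lemma zz_add (n m : ℕ) : 2 ≤ ‖zz n + zz m‖ := by
  have h1 := abs_le_norm (zz n + zz m) 0
  rw [ZeroAtInftyContinuousMap.add_apply, zz_apply, zz_apply, if_pos (by omega),
    if_neg (by omega), if_pos (by omega), if_neg (by omega)] at h1
  norm_num at h1
  exact h1

lemma two_le_symmKottman : 2 ≤ symmKottman Z0 := by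
  have h : 2 ≤ symmSep zz := by
    refine le_csInf ⟨_, 0, 1, by norm_num, rfl⟩ ?_
    rintro _ ⟨n, m, hnm, rfl⟩
    apply le_min _ (zz_add n m)
    rcases lt_or_gt_of_ne hnm with h | h
    · exact (zz_sub h).trans (le_of_eq (norm_sub_rev _ _))
    · exact zz_sub h
  exact h.trans (le_csSup symmKottman_bdd ⟨zz, zz_norm, rfl⟩)

lemma ev_add_ge (n m : ℕ) (h : n ≠ m) : 1 ≤ ‖ev e n + ev e m‖ := by
  have h1 := (ev e n + ev e m).le_opNorm (uv e n)
  rw [norm_uv, mul_one] at h1
  have h2 : (ev e n + ev e m) (uv e n) = 1 := by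
    change ev e n (uv e n) + ev e m (uv e n) = 1
    rw [ev_uv, ev_uv, if_pos rfl, if_neg (Ne.symm h), add_zero]
  rw [h2, norm_one] at h1
  exact h1

lemma one_le_symmKottman (e : Ex) : 1 ≤ symmKottman (StrongDual ℝ (E e)) := by
  have h : 1 ≤ symmSep (ev e) := by
    refine le_csInf ⟨_, 0, 1, by norm_num, rfl⟩ ?_
    rintro _ ⟨n, m, hnm, rfl⟩
    exact le_min (ev_sep n m hnm) (ev_add_ge n m hnm)
  exact h.trans (le_csSup symmKottman_bdd ⟨ev e, norm_ev_le, rfl⟩)

lemma exists_ex {ε : ℝ} (hε : 0 < ε) : ∃ e : Ex, (2:ℝ) ^ (1 / e.q) ≤ 1 + ε := by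
  set q : ℝ := max 2 (1 / ε) with hq
  have h2 : 2 ≤ q := le_max_left _ _
  have h3 : 1 / ε ≤ q := le_max_right _ _
  have h4 : q.HolderConjugate (q / (q - 1)) := Real.HolderConjugate.conjExponent (by linarith)
  refine ⟨⟨q / (q - 1), q, h4.symm⟩, ?_⟩
  change (2:ℝ) ^ (1 / q) ≤ 1 + ε
  have h5 : (2:ℝ) ≤ (1 + ε) ^ q := by
    have h6 := one_add_mul_self_le_rpow_one_add (s := ε) (by linarith) (p := q) (by linarith)
    have h7 : 1 ≤ q * ε := by
      rw [div_le_iff₀ hε] at h3
      exact h3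
    linarith
  have hq0 : 0 < q := by linarith
  calc (2:ℝ) ^ (1 / q) ≤ ((1 + ε) ^ q) ^ (1 / q) :=
        Real.rpow_le_rpow (by norm_num) h5 (by positivity)
    _ = 1 + ε := by
        rw [← Real.rpow_mul (by linarith), mul_one_div_cancel hq0.ne', Real.rpow_one]

/-- For every `ε > 0` there is an infinite-dimensional Banach space `X` of which `c₀` is a
spreading model and for which `1 ≤ K^s(X) ≤ K(X) ≤ 1 + ε`, while `K^s(c₀) = K(c₀) = 2`. -/
theorem result :
    (∀ ε : ℝ, 0 < ε → ∃ (X : Type) (_ : NormedAddCommGroup X) (_ : NormedSpace ℝ X),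
      CompleteSpace X ∧ ¬ FiniteDimensional ℝ X ∧
      IsSpreadingModel X (C₀(ℕ, ℝ)) ∧
      1 ≤ symmKottman X ∧ symmKottman X ≤ kottman X ∧ kottman X ≤ 1 + ε) ∧
    ¬ FiniteDimensional ℝ (C₀(ℕ, ℝ)) ∧
    symmKottman (C₀(ℕ, ℝ)) = 2 ∧ kottman (C₀(ℕ, ℝ)) = 2 := by
  refine ⟨fun ε hε => ?_, not_finiteDimensional (fun n => (norm_ez n).le) ez_sep, ?_, ?_⟩
  · obtain ⟨e, he⟩ := exists_ex hε
    exact ⟨StrongDual ℝ (E e), inferInstance, inferInstance, inferInstance,
      not_finiteDimensional (norm_ev_le (e := e)) ev_sep, spreading, one_le_symmKottman e,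
      symmKottman_le_kottman, kottman_dual_le.trans he⟩
  · exact le_antisymm (symmKottman_le_kottman.trans kottman_le_two) two_le_symmKottman
  · exact le_antisymm kottman_le_two (two_le_symmKottman.trans symmKottman_le_kottman)

end Pool.Agent.Results.MP_7f7e2f_an.KottmanGap
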